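import Mathlib

namespace Pool.Agent.Results.MP_e7950b_an.RittMonotone

open Finset

/-- the finitely supported functions on the integers, with convolution -/
abbrev LA := AddMonoidAlgebra ℝ ℤ

/-- the translation element -/
noncomputable def tr (i : ℤ) : LA := AddMonoidAlgebra.single i 1

/-- the l1 norm -/
noncomputable def nrm (f : LA) : ℝ := ∑' k : ℤ, |f.coeff k|

theorem summ_aux (f : LA) (g : ℤ → ℝ) (hg : ∀ k, f.coeff k = 0 → g k = 0) : Summable g := by
  apply summable_of_ne_finset_zero (s := f.coeff.support)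
  intro k hk
  exact hg k (by simpa using hk)

theorem tr_zero : tr 0 = 1 := rfl

theorem tr_mul (i j : ℤ) : tr i * tr j = tr (i + j) := by
  rw [tr, tr, tr, AddMonoidAlgebra.single_mul_single, one_mul]

theorem coeff_tr_mul (i : ℤ) (f : LA) (k : ℤ) : (tr i * f).coeff k = f.coeff (k - i) := by
  simp only [tr, AddMonoidAlgebra.coeff_single_mul_apply, one_mul]
  congr 1; ring

theorem nrm_nonneg (f : LA) : 0 ≤ nrm f := tsum_nonneg (fun _ => abs_nonneg _)

theorem summ_abs (f : LA) : Summable (fun k : ℤ => |f.coeff k|) :=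
  summ_aux f _ (fun k hk => by simp [hk])

theorem nrm_zero : nrm 0 = 0 := by simp [nrm]

theorem nrm_add (f g : LA) : nrm (f + g) ≤ nrm f + nrm g := by
  unfold nrm
  rw [← (summ_abs f).tsum_add (summ_abs g)]
  apply Summable.tsum_le_tsum _ (summ_abs _) ((summ_abs f).add (summ_abs g))
  intro k
  simp only [AddMonoidAlgebra.coeff_add, Finsupp.add_apply]
  exact abs_add_le _ _

theorem nrm_smul (c : ℝ) (f : LA) : nrm (c • f) = |c| * nrm f := by
  unfold nrm
  rw [← tsum_mul_left]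
  congr 1; funext k
  simp [abs_mul]

theorem nrm_neg (f : LA) : nrm (-f) = nrm f := by
  unfold nrm
  congr 1; funext k
  simp

theorem nrm_tr_mul (i : ℤ) (f : LA) : nrm (tr i * f) = nrm f := by
  unfold nrm
  rw [← (Equiv.subRight i).tsum_eq (fun k => |f.coeff k|)]
  congr 1; funext k
  rw [coeff_tr_mul]; rfl

theorem nrm_sum {ι : Type*} (s : Finset ι) (f : ι → LA) :
    nrm (∑ i ∈ s, f i) ≤ ∑ i ∈ s, nrm (f i) := by
  classical
  induction s using Finset.induction_on with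
  | empty => simp [nrm_zero]
  | insert a s ha ih =>
    rw [Finset.sum_insert ha, Finset.sum_insert ha]
    exact (nrm_add _ _).trans (by linarith)

theorem eq_sum (f : LA) : f = ∑ i ∈ f.coeff.support, f.coeff i • tr i := by
  conv_lhs => rw [← AddMonoidAlgebra.sum_coeff_single f]
  unfold Finsupp.sum
  apply Finset.sum_congr rfl
  intro i _
  rw [tr, AddMonoidAlgebra.smul_single', mul_one]

theorem nrm_eq_sum (f : LA) : nrm f = ∑ i ∈ f.coeff.support, |f.coeff i| := by
  unfold nrm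
  apply tsum_eq_sum
  intro k hk
  have : f.coeff k = 0 := by simpa using hk
  simp [this]

theorem nrm_mul (f g : LA) : nrm (f * g) ≤ nrm f * nrm g := by
  conv_lhs => rw [eq_sum f, Finset.sum_mul]
  refine (nrm_sum _ _).trans ?_
  rw [nrm_eq_sum f, Finset.sum_mul]
  apply Finset.sum_le_sum
  intro i _
  rw [smul_mul_assoc, nrm_smul, nrm_tr_mul]

theorem coeff_le_nrm (f : LA) (k : ℤ) : |f.coeff k| ≤ nrm f :=
  (summ_abs f).le_tsum k (fun _ _ => abs_nonneg _)

theorem sum_le_nrm (f : LA) (s : Finset ℤ) : ∑ k ∈ s, |f.coeff k| ≤ nrm f :=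
  (summ_abs f).sum_le_tsum s (fun _ _ => abs_nonneg _)

/-- good elements: nonnegative, symmetric, strongly log-concave, of mass one -/
structure Good (f : LA) : Prop where
  nonneg : ∀ k, 0 ≤ f.coeff k
  symm : ∀ k, f.coeff (-k) = f.coeff k
  lc : ∀ x y : ℤ, ∀ n : ℕ, x ≤ y → f.coeff (x - n) * f.coeff (y + n) ≤ f.coeff x * f.coeff y
  mass : ∑' k : ℤ, f.coeff k = 1

theorem Good.anti {f : LA} (h : Good f) (k : ℕ) (l : ℕ) (hkl : k ≤ l) :
    f.coeff (l : ℤ) ≤ f.coeff (k : ℤ) := by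
  have h1 := h.lc (-(k:ℤ)) k (l - k) (by omega)
  have e1 : (-(k:ℤ) - ((l - k : ℕ) : ℤ)) = -(l : ℤ) := by omega
  have e2 : ((k:ℤ) + ((l - k : ℕ) : ℤ)) = (l : ℤ) := by omega
  rw [e1, e2, h.symm, h.symm] at h1
  nlinarith [h.nonneg l, h.nonneg k]

theorem Good.nrm_eq {f : LA} (h : Good f) : nrm f = 1 := by
  unfold nrm
  rw [← h.mass]
  congr 1; funext k
  exact abs_of_nonneg (h.nonneg k)

theorem Good.nrm_diff {f : LA} (h : Good f) : nrm ((1 - tr 1) * f) ≤ 2 * f.coeff 0 := by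
  have h0 : ∀ k, ((1 - tr 1) * f).coeff k = f.coeff k - f.coeff (k - 1) := by
    intro k
    rw [sub_mul, one_mul, AddMonoidAlgebra.coeff_sub, Finsupp.sub_apply, coeff_tr_mul]
  have h1 : nrm ((1 - tr 1) * f) = ∑' k : ℤ, |f.coeff (k + 1) - f.coeff k| := by
    unfold nrm
    rw [← (Equiv.addRight (1 : ℤ)).tsum_eq (fun k => |((1 - tr 1) * f).coeff k|)]
    congr 1; funext k
    rw [h0]
    simp
  rw [h1]
  have s1 : Summable (fun n : ℕ => |f.coeff ((n : ℤ) + 1) - f.coeff (n : ℤ)|) := by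
    have : Summable (fun k : ℤ => |f.coeff (k + 1) - f.coeff k|) := by
      have a1 : Summable (fun k : ℤ => |f.coeff (k + 1)|) :=
        (Equiv.addRight (1 : ℤ)).summable_iff.mpr (summ_abs f)
      refine Summable.of_nonneg_of_le (fun _ => abs_nonneg _) (fun k => ?_) (a1.add (summ_abs f))
      exact abs_sub _ _
    exact this.comp_injective Nat.cast_injective
  have e2 : ∀ n : ℕ, |f.coeff (-((n : ℤ) + 1) + 1) - f.coeff (-((n : ℤ) + 1))|
      = |f.coeff ((n : ℤ) + 1) - f.coeff (n : ℤ)| := by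
    intro n
    have : (-((n : ℤ) + 1) + 1) = -(n : ℤ) := by ring
    rw [this, h.symm, h.symm, abs_sub_comm]
  have s2 : Summable (fun n : ℕ => |f.coeff (-((n : ℤ) + 1) + 1) - f.coeff (-((n : ℤ) + 1))|) := by
    simp_rw [e2]; exact s1
  rw [tsum_of_nat_of_neg_add_one (f := fun k : ℤ => |f.coeff (k + 1) - f.coeff k|) s1 s2]
  simp_rw [e2]
  have h3 : ∑' n : ℕ, |f.coeff ((n : ℤ) + 1) - f.coeff (n : ℤ)| ≤ f.coeff 0 := by
    apply Real.tsum_le_of_sum_range_le (fun _ => abs_nonneg _)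
    intro n
    have : ∀ n : ℕ, ∑ i ∈ range n, |f.coeff ((i : ℤ) + 1) - f.coeff (i : ℤ)|
        = f.coeff 0 - f.coeff (n : ℤ) := by
      intro n
      induction n with
      | zero => simp
      | succ n ih =>
        rw [Finset.sum_range_succ, ih]
        have := h.anti n (n+1) (by omega)
        push_cast at this ⊢
        rw [abs_of_nonpos (by linarith)]
        ring
    rw [this]
    have := h.nonneg n
    linarith
  linarith


/-- window sums -/
noncomputable def D (k : ℕ) : LA := ∑ i ∈ range (2 * k + 1), tr ((k : ℤ) - i)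

/-- the uniform probability on the symmetric interval -/
noncomputable def U (k : ℕ) : LA := (1 / (2 * (k : ℝ) + 1)) • D k

theorem coeff_D_mul (k : ℕ) (f : LA) (x : ℤ) :
    (D k * f).coeff x = ∑ i ∈ range (2 * k + 1), f.coeff (x - k + i) := by
  unfold D
  rw [Finset.sum_mul, AddMonoidAlgebra.coeff_sum, Finsupp.finsetSum_apply]
  apply Finset.sum_congr rfl
  intro i _
  rw [coeff_tr_mul]
  congr 1; ring

theorem coeff_U_mul (k : ℕ) (f : LA) (x : ℤ) :
    (U k * f).coeff x = (1 / (2 * (k : ℝ) + 1)) * ∑ i ∈ range (2 * k + 1), f.coeff (x - k + i) := by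
  unfold U
  rw [smul_mul_assoc, AddMonoidAlgebra.coeff_smul_apply, coeff_D_mul, smul_eq_mul]

/-- one-step inequality for window sums of a strongly log-concave function -/
theorem window_step (f : ℤ → ℝ)
    (hf : ∀ x y : ℤ, ∀ n : ℕ, x ≤ y → f (x - n) * f (y + n) ≤ f x * f y) (L : ℕ) (x y : ℤ)
    (hxy : x ≤ y) :
    (∑ i ∈ range L, f (x - 1 + i)) * (∑ i ∈ range L, f (y + 1 + i))
      ≤ (∑ i ∈ range L, f (x + i)) * (∑ i ∈ range L, f (y + i)) := by
  have shift : ∀ z : ℤ, ∑ i ∈ range L, f (z - 1 + i) + f (z - 1 + L)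
      = f (z - 1) + ∑ i ∈ range L, f (z + i) := by
    intro z
    rw [← Finset.sum_range_succ (fun i : ℕ => f (z - 1 + (i : ℤ))), Finset.sum_range_succ',
      add_comm]
    congr 1
    · simp
    · apply Finset.sum_congr rfl
      intro i _
      congr 1; push_cast; ring
  have e1 := shift x
  have e2 := shift (y + 1)
  have e3 : (y + 1 - 1 : ℤ) = y := by ring
  rw [e3] at e2
  set gx := ∑ i ∈ range L, f (x + i) with hgx
  set gy := ∑ i ∈ range L, f (y + i) with hgy
  set gx' := ∑ i ∈ range L, f (x - 1 + i) with hgx'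
  set gy' := ∑ i ∈ range L, f (y + 1 + i) with hgy'
  have key : gx * gy - gx' * gy' = (f (x - 1 + L) - f (x - 1)) * gy - gx' * (f (y + L) - f y) := by
    have h1 : gx = gx' + f (x - 1 + L) - f (x - 1) := by linarith
    have h2 : gy' = gy + f (y + L) - f y := by linarith
    rw [h2, h1]; ring
  have s1 : (f (x - 1 + L) - f (x - 1)) * gy - gx' * (f (y + L) - f y)
      = ∑ i ∈ range L, ((f (x - 1 + L) * f (y + i) - f (x - 1 + i) * f (y + L))
        + (f (x - 1 + i) * f y - f (x - 1) * f (y + i))) := by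
    rw [hgy, hgx', Finset.mul_sum, Finset.sum_mul, ← Finset.sum_sub_distrib]
    apply Finset.sum_congr rfl
    intro i _
    ring
  have s2 : 0 ≤ ∑ i ∈ range L, ((f (x - 1 + L) * f (y + i) - f (x - 1 + i) * f (y + L))
        + (f (x - 1 + i) * f y - f (x - 1) * f (y + i))) := by
    apply Finset.sum_nonneg
    intro i hi
    have hi' : i < L := Finset.mem_range.mp hi
    have strong : ∀ a b c d : ℤ, a ≤ b → a ≤ c → a + d = b + c → f a * f d ≤ f b * f c := by
      intro a b c d hab hac hs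
      rcases le_total b c with hbc | hcb
      · have := hf b c (b - a).toNat hbc
        have t : ((b - a).toNat : ℤ) = b - a := Int.toNat_of_nonneg (by omega)
        rw [t] at this
        have t1 : b - (b - a) = a := by ring
        have t2 : c + (b - a) = d := by omega
        rwa [t1, t2] at this
      · have := hf c b (c - a).toNat hcb
        have t : ((c - a).toNat : ℤ) = c - a := Int.toNat_of_nonneg (by omega)
        rw [t] at this
        have t1 : c - (c - a) = a := by ring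
        have t2 : b + (c - a) = d := by omega
        rw [t1, t2] at this
        linarith [mul_comm (f b) (f c)]
    have q1 := strong (x - 1 + i) (x - 1 + L) (y + i) (y + L) (by omega) (by omega) (by ring)
    have q2 := strong (x - 1) (x - 1 + i) y (y + i) (by omega) (by omega) (by ring)
    linarith
  linarith

theorem Good.U_lc {f : LA} (h : Good f) (k : ℕ) (x y : ℤ) (n : ℕ) (hxy : x ≤ y) :
    (U k * f).coeff (x - n) * (U k * f).coeff (y + n) ≤ (U k * f).coeff x * (U k * f).coeff y := by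
  induction n with
  | zero => simp
  | succ n ih =>
    refine le_trans ?_ ih
    simp only [coeff_U_mul]
    have hw := window_step (fun z => f.coeff z) h.lc (2 * k + 1) (x - n - k) (y + n - k) (by omega)
    have hc : 0 ≤ (1 / (2 * (k : ℝ) + 1)) := by positivity
    have hc2 : 0 ≤ (1 / (2 * (k : ℝ) + 1)) * (1 / (2 * (k : ℝ) + 1)) := by positivity
    have e1 : ∀ i : ℕ, f.coeff (x - ((n + 1 : ℕ) : ℤ) - k + i) = f.coeff (x - n - k - 1 + i) := by
      intro i; congr 1; push_cast; ring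
    have e2 : ∀ i : ℕ, f.coeff (y + ((n + 1 : ℕ) : ℤ) - k + i) = f.coeff (y + n - k + 1 + i) := by
      intro i; congr 1; push_cast; ring
    simp_rw [e1, e2]
    have := mul_le_mul_of_nonneg_left hw hc2
    calc _ = (1 / (2 * (k : ℝ) + 1)) * (1 / (2 * (k : ℝ) + 1)) *
          ((∑ i ∈ range (2 * k + 1), f.coeff (x - n - k - 1 + i)) *
            (∑ i ∈ range (2 * k + 1), f.coeff (y + n - k + 1 + i))) := by ring
      _ ≤ _ := this
      _ = _ := by ring

/-- moments -/
noncomputable def mom (φ : ℤ → ℝ) (f : LA) : ℝ := ∑' k : ℤ, φ k * f.coeff k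

theorem summ_mom (φ : ℤ → ℝ) (f : LA) : Summable (fun k : ℤ => φ k * f.coeff k) :=
  summ_aux f _ (fun k hk => by simp [hk])

theorem mom_add (φ : ℤ → ℝ) (f g : LA) : mom φ (f + g) = mom φ f + mom φ g := by
  unfold mom
  rw [← (summ_mom φ f).tsum_add (summ_mom φ g)]
  congr 1; funext k
  simp only [AddMonoidAlgebra.coeff_add, Finsupp.add_apply]
  ring

theorem mom_zero (φ : ℤ → ℝ) : mom φ 0 = 0 := by simp [mom]

theorem mom_smul (φ : ℤ → ℝ) (c : ℝ) (f : LA) : mom φ (c • f) = c * mom φ f := by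
  unfold mom
  rw [← tsum_mul_left]
  congr 1; funext k
  simp; ring

theorem mom_sum (φ : ℤ → ℝ) {ι : Type*} (s : Finset ι) (f : ι → LA) :
    mom φ (∑ i ∈ s, f i) = ∑ i ∈ s, mom φ (f i) := by
  classical
  induction s using Finset.induction_on with
  | empty => simp [mom_zero]
  | insert a s ha ih => rw [Finset.sum_insert ha, Finset.sum_insert ha, mom_add, ih]

theorem mom_tr (φ : ℤ → ℝ) (i : ℤ) (f : LA) :
    mom φ (tr i * f) = ∑' k : ℤ, φ (k + i) * f.coeff k := by
  unfold mom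
  rw [← (Equiv.addRight i).tsum_eq (fun k => φ k * (tr i * f).coeff k)]
  congr 1; funext k
  rw [coeff_tr_mul]
  simp

theorem mom0_tr (i : ℤ) (f : LA) : mom (fun _ => 1) (tr i * f) = mom (fun _ => 1) f := by
  rw [mom_tr]; rfl

theorem mom2_tr (i : ℤ) (f : LA) : mom (fun k => (k : ℝ) ^ 2) (tr i * f)
    = mom (fun k => (k : ℝ) ^ 2) f + 2 * i * mom (fun k => (k : ℝ)) f
      + (i : ℝ) ^ 2 * mom (fun _ => 1) f := by
  rw [mom_tr]
  unfold mom
  rw [← tsum_mul_left, ← tsum_mul_left,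
    ← (summ_mom _ f).tsum_add ((summ_mom _ f).mul_left _),
    ← ((summ_mom _ f).add ((summ_mom _ f).mul_left _)).tsum_add ((summ_mom _ f).mul_left _)]
  congr 1; funext k
  push_cast; ring

theorem Good.mom0 {f : LA} (h : Good f) : mom (fun _ => 1) f = 1 := by
  unfold mom; simpa using h.mass

theorem Good.mom1 {f : LA} (h : Good f) : mom (fun k => (k : ℝ)) f = 0 := by
  have : mom (fun k => (k : ℝ)) f = - mom (fun k => (k : ℝ)) f := by
    conv_lhs => unfold mom
    rw [← (Equiv.neg ℤ).tsum_eq]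
    unfold mom
    rw [← tsum_neg]
    congr 1; funext k
    simp [h.symm]
  linarith

theorem sum_sq_aux (c : ℝ) (n : ℕ) : ∑ i ∈ range n, (c - (i : ℝ)) ^ 2
    = n * c ^ 2 - c * n * (n - 1) + (n - 1) * n * (2 * n - 1) / 6 := by
  induction n with
  | zero => simp
  | succ n ih => rw [Finset.sum_range_succ, ih]; push_cast; ring

theorem sum_lin_aux (c : ℝ) (n : ℕ) : ∑ i ∈ range n, (c - (i : ℝ))
    = n * c - n * (n - 1) / 2 := by
  induction n with
  | zero => simp
  | succ n ih => rw [Finset.sum_range_succ, ih]; push_cast; ring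

theorem Good.mom2_U {f : LA} (h : Good f) (k : ℕ) :
    mom (fun k => (k : ℝ) ^ 2) (U k * f) = mom (fun k => (k : ℝ) ^ 2) f + k * (k + 1) / 3 := by
  unfold U D
  rw [smul_mul_assoc, mom_smul, Finset.sum_mul, mom_sum]
  simp_rw [mom2_tr, h.mom1, h.mom0]
  simp only [mul_zero, add_zero, mul_one]
  rw [Finset.sum_add_distrib]
  push_cast
  rw [sum_sq_aux]
  simp only [Finset.sum_const, Finset.card_range, nsmul_eq_mul]
  have : (2 * (k : ℝ) + 1) ≠ 0 := by positivity
  push_cast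
  field_simp
  ring

theorem Good.mom0_U {f : LA} (h : Good f) (k : ℕ) :
    mom (fun _ => 1) (U k * f) = 1 := by
  unfold U D
  rw [smul_mul_assoc, mom_smul, Finset.sum_mul, mom_sum]
  simp_rw [mom0_tr, h.mom0]
  simp only [Finset.sum_const, Finset.card_range, nsmul_eq_mul]
  have : (2 * (k : ℝ) + 1) ≠ 0 := by positivity
  push_cast
  field_simp

theorem Good.U_mul {f : LA} (h : Good f) (k : ℕ) : Good (U k * f) where
  nonneg x := by
    rw [coeff_U_mul]
    have : 0 ≤ ∑ i ∈ range (2 * k + 1), f.coeff (x - k + i) :=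
      Finset.sum_nonneg (fun i _ => h.nonneg _)
    positivity
  symm x := by
    rw [coeff_U_mul, coeff_U_mul]
    congr 1
    rw [← Finset.sum_range_reflect]
    apply Finset.sum_congr rfl
    intro i hi
    have hi' : i < 2 * k + 1 := Finset.mem_range.mp hi
    rw [← h.symm]
    congr 1
    omega
  lc x y n hxy := h.U_lc k x y n hxy
  mass := by
    have := h.mom0_U k
    unfold mom at this
    simpa using this

theorem good_one : Good (1 : LA) := by
  have h1 : ∀ k : ℤ, (1 : LA).coeff k = if k = 0 then 1 else 0 := by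
    intro k
    rw [AddMonoidAlgebra.one_def, AddMonoidAlgebra.coeff_single, Finsupp.single_apply]
    simp [eq_comm]
  refine ⟨fun k => ?_, fun k => ?_, fun x y n hxy => ?_, ?_⟩
  · rw [h1]; split_ifs <;> norm_num
  · rw [h1, h1]; simp
  · simp only [h1]
    split_ifs <;> first | (exfalso; omega) | norm_num
  · simp_rw [h1]; simp

/-- products of uniforms -/
noncomputable def A {m : ℕ} (p : Fin m → ℕ) : LA := ∏ j, U (p j)

theorem good_A {m : ℕ} (p : Fin m → ℕ) : Good (A p) ∧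
    mom (fun k => (k : ℝ) ^ 2) (A p) = ∑ j, (p j : ℝ) * (p j + 1) / 3 := by
  induction m with
  | zero =>
    refine ⟨by unfold A; simpa using good_one, ?_⟩
    unfold A mom
    simp only [Finset.univ_eq_empty, Finset.prod_empty, Finset.sum_empty]
    rw [tsum_eq_single 0]
    · simp
    · intro k hk
      rw [AddMonoidAlgebra.one_def, AddMonoidAlgebra.coeff_single, Finsupp.single_apply,
        if_neg (fun h => hk h.symm)]
      simp
  | succ m ih =>
    obtain ⟨g, v⟩ := ih (fun j => p j.succ)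
    have e : A p = U (p 0) * A (fun j => p j.succ) := by
      unfold A; rw [Fin.prod_univ_succ]
    rw [e]
    refine ⟨g.U_mul _, ?_⟩
    rw [g.mom2_U, v, Fin.sum_univ_succ]
    ring


theorem Good.sub_mul' {f : LA} (h : Good f) (x y : ℕ) :
    f.coeff 0 * f.coeff ((x + y : ℕ) : ℤ) ≤ f.coeff (x : ℤ) * f.coeff (y : ℤ) := by
  rcases le_total x y with hxy | hxy
  · have := h.lc x y x (by exact_mod_cast hxy)
    have e : (x : ℤ) - x = 0 := by ring
    have e2 : (y : ℤ) + x = ((x + y : ℕ) : ℤ) := by push_cast; ring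
    rwa [e, e2] at this
  · have := h.lc y x y (by exact_mod_cast hxy)
    have e : (y : ℤ) - y = 0 := by ring
    have e2 : (x : ℤ) + y = ((x + y : ℕ) : ℤ) := by push_cast; ring
    rw [e, e2] at this
    linarith [mul_comm (f.coeff (x : ℤ)) (f.coeff (y : ℤ))]

theorem Good.sum_le_one {f : LA} (h : Good f) (N : ℕ) :
    ∑ n ∈ range N, f.coeff (n : ℤ) ≤ 1 := by
  rw [← h.mass]
  have hs : Summable (fun k : ℤ => f.coeff k) := summ_aux f _ (fun k hk => hk)
  have := hs.sum_le_tsum ((range N).map Nat.castEmbedding) (fun _ _ => h.nonneg _)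
  simpa using this

theorem Good.sq_bound {f : LA} (h : Good f) :
    (f.coeff 0) ^ 2 * mom (fun k => (k : ℝ) ^ 2) f ≤ 4 := by
  obtain ⟨N, hN⟩ : ∃ N : ℕ, ∀ n : ℕ, N ≤ n → f.coeff (n : ℤ) = 0 := by
    refine ⟨f.coeff.support.sup Int.natAbs + 1, fun n hn => ?_⟩
    by_contra hne
    have hmem : (n : ℤ) ∈ f.coeff.support := by simpa using hne
    have := Finset.le_sup (f := Int.natAbs) hmem
    simp at this
    omega
  have F0 : 0 ≤ f.coeff 0 := h.nonneg 0
  -- tail bound
  have tail : ∀ x, f.coeff 0 * ∑ k ∈ Ico x N, f.coeff (k : ℤ) ≤ f.coeff (x : ℤ) := by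
    intro x
    rw [Finset.sum_Ico_eq_sum_range, Finset.mul_sum]
    calc ∑ i ∈ range (N - x), f.coeff 0 * f.coeff ((x + i : ℕ) : ℤ)
        ≤ ∑ i ∈ range (N - x), f.coeff (x : ℤ) * f.coeff (i : ℤ) :=
          Finset.sum_le_sum (fun i _ => h.sub_mul' x i)
      _ = f.coeff (x : ℤ) * ∑ i ∈ range (N - x), f.coeff (i : ℤ) := by rw [Finset.mul_sum]
      _ ≤ f.coeff (x : ℤ) * 1 := mul_le_mul_of_nonneg_left (h.sum_le_one _) (h.nonneg _)
      _ = f.coeff (x : ℤ) := mul_one _
  have swap : ∀ w : ℕ → ℝ, ∑ x ∈ Ico 0 N, w x * ∑ k ∈ Ico x N, f.coeff (k : ℤ)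
      = ∑ k ∈ Ico 0 N, (∑ i ∈ Ico 0 (k + 1), w i) * f.coeff (k : ℤ) := by
    intro w
    have := Finset.sum_Ico_Ico_comm 0 N (fun i j : ℕ => w i * f.coeff (j : ℤ))
    simp_rw [Finset.mul_sum, Finset.sum_mul]
    exact this
  have s1 : f.coeff 0 * ∑ k ∈ Ico 0 N, ((k : ℝ) + 1) * f.coeff (k : ℤ) ≤ 1 := by
    have e := swap (fun _ => 1)
    simp only [one_mul, Finset.sum_const, Nat.card_Ico, nsmul_eq_mul, mul_one] at e
    have e' : ∑ k ∈ Ico 0 N, ((k : ℝ) + 1) * f.coeff (k : ℤ)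
        = ∑ x ∈ Ico 0 N, ∑ k ∈ Ico x N, f.coeff (k : ℤ) := by
      rw [e]; apply Finset.sum_congr rfl; intro k _; push_cast; ring
    rw [e', Finset.mul_sum]
    calc _ ≤ ∑ x ∈ Ico 0 N, f.coeff (x : ℤ) := Finset.sum_le_sum (fun x _ => tail x)
      _ ≤ 1 := by rw [← Finset.range_eq_Ico]; exact h.sum_le_one N
  have gauss : ∀ k : ℕ, ∑ i ∈ Ico 0 (k + 1), ((i : ℝ) + 1) = ((k : ℝ) + 1) * (k + 2) / 2 := by
    intro k
    rw [← Finset.range_eq_Ico]
    induction k with
    | zero => simp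
    | succ k ih => rw [Finset.sum_range_succ, ih]; push_cast; ring
  have s2 : (f.coeff 0) ^ 2 * ∑ k ∈ Ico 0 N, (((k : ℝ) + 1) * (k + 2) / 2) * f.coeff (k : ℤ)
      ≤ 1 := by
    have e := swap (fun i => (i : ℝ) + 1)
    simp_rw [gauss] at e
    rw [← e]
    have e2 : f.coeff 0 * ∑ x ∈ Ico 0 N, ((x : ℝ) + 1) * ∑ k ∈ Ico x N, f.coeff (k : ℤ)
        ≤ ∑ k ∈ Ico 0 N, ((k : ℝ) + 1) * f.coeff (k : ℤ) := by
      rw [Finset.mul_sum]
      apply Finset.sum_le_sum
      intro x _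
      have := mul_le_mul_of_nonneg_left (tail x) (show (0 : ℝ) ≤ (x : ℝ) + 1 by positivity)
      calc _ = ((x : ℝ) + 1) * (f.coeff 0 * ∑ k ∈ Ico x N, f.coeff (k : ℤ)) := by ring
        _ ≤ _ := this
    calc _ = f.coeff 0 * (f.coeff 0 *
          ∑ x ∈ Ico 0 N, ((x : ℝ) + 1) * ∑ k ∈ Ico x N, f.coeff (k : ℤ)) := by ring
      _ ≤ f.coeff 0 * ∑ k ∈ Ico 0 N, ((k : ℝ) + 1) * f.coeff (k : ℤ) :=
          mul_le_mul_of_nonneg_left e2 F0
      _ ≤ 1 := s1
  -- the second moment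
  have s3 : mom (fun k => (k : ℝ) ^ 2) f ≤
      4 * ∑ k ∈ Ico 0 N, (((k : ℝ) + 1) * (k + 2) / 2) * f.coeff (k : ℤ) := by
    have hsum := summ_mom (fun k => (k : ℝ) ^ 2) f
    have a1 : Summable (fun n : ℕ => ((n : ℤ) : ℝ) ^ 2 * f.coeff (n : ℤ)) :=
      hsum.comp_injective Nat.cast_injective
    have inj : Function.Injective (fun n : ℕ => -((n : ℤ) + 1)) := by
      intro a b hab; simp at hab; exact hab
    have a2 : Summable (fun n : ℕ => ((-((n : ℤ) + 1) : ℤ) : ℝ) ^ 2 * f.coeff (-((n : ℤ) + 1))) :=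
      hsum.comp_injective inj
    unfold mom
    rw [tsum_of_nat_of_neg_add_one (f := fun k : ℤ => (k : ℝ) ^ 2 * f.coeff k) a1 a2]
    have b1 : ∑' n : ℕ, ((n : ℤ) : ℝ) ^ 2 * f.coeff (n : ℤ)
        = ∑ n ∈ range N, (n : ℝ) ^ 2 * f.coeff (n : ℤ) := by
      rw [tsum_eq_sum (s := range N)]
      · simp
      · intro n hn
        rw [hN n (by simpa using hn)]; simp
    have b2 : ∑' n : ℕ, ((-((n : ℤ) + 1) : ℤ) : ℝ) ^ 2 * f.coeff (-((n : ℤ) + 1))
        = ∑ n ∈ range N, (n : ℝ) ^ 2 * f.coeff (n : ℤ) := by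
      rw [tsum_eq_sum (s := range N)]
      · have c1 : ∑ n ∈ range (N + 1), (n : ℝ) ^ 2 * f.coeff (n : ℤ)
            = ∑ n ∈ range N, (n : ℝ) ^ 2 * f.coeff (n : ℤ) := by
          rw [Finset.sum_range_succ, hN N le_rfl]; simp
        rw [← c1, Finset.sum_range_succ']
        simp only [Nat.cast_zero, ne_eq, OfNat.ofNat_ne_zero, not_false_eq_true, zero_pow,
          zero_mul, add_zero]
        apply Finset.sum_congr rfl
        intro n _
        rw [h.symm]
        push_cast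
        ring_nf
      · intro n hn
        have hn' : N ≤ n := by simpa using hn
        rw [h.symm]
        have := hN (n + 1) (by omega)
        push_cast at this
        rw [this]; simp
    rw [b1, b2, Finset.range_eq_Ico, ← two_mul, Finset.mul_sum, Finset.mul_sum]
    apply Finset.sum_le_sum
    intro n _
    have := h.nonneg (n : ℤ)
    have hn : (0 : ℝ) ≤ (n : ℝ) := by positivity
    nlinarith [mul_nonneg hn this]
  have hsq : 0 ≤ (f.coeff 0) ^ 2 := sq_nonneg _
  calc _ ≤ (f.coeff 0) ^ 2 * (4 * ∑ k ∈ Ico 0 N, (((k : ℝ) + 1) * (k + 2) / 2) * f.coeff (k : ℤ)) :=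
        mul_le_mul_of_nonneg_left s3 hsq
    _ = 4 * ((f.coeff 0) ^ 2 * ∑ k ∈ Ico 0 N, (((k : ℝ) + 1) * (k + 2) / 2) * f.coeff (k : ℤ)) := by
        ring
    _ ≤ 4 := by linarith

theorem A_bound {m : ℕ} (p : Fin m → ℕ) :
    ((A p).coeff 0) ^ 2 * ∑ j, (p j : ℝ) ^ 2 ≤ 12 := by
  obtain ⟨g, v⟩ := good_A p
  have h1 := g.sq_bound
  rw [v] at h1
  have h2 : ∑ j, (p j : ℝ) ^ 2 ≤ 3 * ∑ j, (p j : ℝ) * (p j + 1) / 3 := by
    rw [Finset.mul_sum]
    apply Finset.sum_le_sum
    intro j _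
    have : (0 : ℝ) ≤ p j := by positivity
    nlinarith
  have hsq : 0 ≤ ((A p).coeff 0) ^ 2 := sq_nonneg _
  nlinarith [mul_le_mul_of_nonneg_left h2 hsq]

theorem D_succ (k : ℕ) : D (k + 1) = D k + (tr ((k : ℤ) + 1) + tr (-((k : ℤ) + 1))) := by
  unfold D
  have e : 2 * (k + 1) + 1 = (2 * k + 1) + 1 + 1 := by ring
  rw [e, Finset.sum_range_succ, Finset.sum_range_succ']
  have h1 : ∀ i ∈ range (2 * k + 1), tr (((k + 1 : ℕ) : ℤ) - ((i + 1 : ℕ) : ℤ)) = tr ((k : ℤ) - i) := by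
    intro i _
    congr 1; push_cast; ring
  rw [Finset.sum_congr rfl h1]
  have h2 : tr (((k + 1 : ℕ) : ℤ) - ((0 : ℕ) : ℤ)) = tr ((k : ℤ) + 1) := by
    congr 1
  have h3 : tr (((k + 1 : ℕ) : ℤ) - ((2 * k + 1 + 1 : ℕ) : ℤ)) = tr (-((k : ℤ) + 1)) := by
    congr 1; push_cast; ring
  rw [h2, h3]
  ring

theorem D_zero : D 0 = 1 := by
  unfold D
  simp [tr_zero]

theorem one_sub_U (k : ℕ) : 1 - U k = (1 / (2 * (k : ℝ) + 1)) •
    ∑ i ∈ range k, (2 - tr ((i : ℤ) + 1) - tr (-((i : ℤ) + 1))) := by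
  have h : ((2 * (k : ℝ) + 1)) • (1 : LA) - D k =
      ∑ i ∈ range k, (2 - tr ((i : ℤ) + 1) - tr (-((i : ℤ) + 1))) := by
    induction k with
    | zero => simp [D_zero]
    | succ k ih =>
      rw [Finset.sum_range_succ, ← ih, D_succ]
      have : ((2 * ((k + 1 : ℕ) : ℝ) + 1)) • (1 : LA) = ((2 * (k : ℝ) + 1)) • (1 : LA) + 2 := by
        have : (2 : LA) = (2 : ℝ) • (1 : LA) := by
          rw [two_smul, one_add_one_eq_two]
        rw [this, ← add_smul]
        congr 1; push_cast; ring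
      rw [this]
      ring
  have hne : (2 * (k : ℝ) + 1) ≠ 0 := by positivity
  rw [← h, smul_sub, smul_smul, one_div, inv_mul_cancel₀ hne, one_smul, U, one_div]

theorem Good.nrm_diff_n {f : LA} (h : Good f) (n : ℕ) :
    nrm ((1 - tr (n : ℤ)) * f) ≤ 2 * n * f.coeff 0 := by
  induction n with
  | zero => simp [tr_zero, nrm_zero]
  | succ n ih =>
    have e : (1 - tr ((n + 1 : ℕ) : ℤ)) * f = (1 - tr (n : ℤ)) * f + tr (n : ℤ) * ((1 - tr 1) * f) := by
      have : tr ((n + 1 : ℕ) : ℤ) = tr (n : ℤ) * tr 1 := by rw [tr_mul]; push_cast; rfl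
      rw [this]; ring
    rw [e]
    refine (nrm_add _ _).trans ?_
    rw [nrm_tr_mul]
    have := h.nrm_diff
    push_cast
    linarith

theorem second_diff {f g : LA} (hf : Good f) (hg : Good g) (n : ℕ) :
    nrm ((2 - tr (n : ℤ) - tr (-(n : ℤ))) * (f * g)) ≤ 4 * (n : ℝ) ^ 2 * (f.coeff 0 * g.coeff 0) := by
  have e : (2 - tr (n : ℤ) - tr (-(n : ℤ))) * (f * g)
      = -(tr (-(n : ℤ)) * (((1 - tr (n : ℤ)) * f) * ((1 - tr (n : ℤ)) * g))) := by
    have h1 : tr (-(n : ℤ)) * tr (n : ℤ) = 1 := by rw [tr_mul, neg_add_cancel, tr_zero]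
    have : -(tr (-(n : ℤ)) * (((1 - tr (n : ℤ)) * f) * ((1 - tr (n : ℤ)) * g)))
        = (-(tr (-(n : ℤ))) + 2 * (tr (-(n : ℤ)) * tr (n : ℤ))
          - (tr (-(n : ℤ)) * tr (n : ℤ)) * tr (n : ℤ)) * (f * g) := by ring
    rw [this, h1]; ring
  rw [e, nrm_neg, nrm_tr_mul]
  refine (nrm_mul _ _).trans ?_
  have a := hf.nrm_diff_n n
  have b := hg.nrm_diff_n n
  have := mul_le_mul a b (nrm_nonneg _) (le_trans (nrm_nonneg _) a)
  calc _ ≤ _ := this
    _ = _ := by ring

theorem second_U {f g : LA} (hf : Good f) (hg : Good g) (k : ℕ) :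
    nrm ((1 - U k) * (f * g)) ≤ (4 / 3) * (k : ℝ) ^ 2 * (f.coeff 0 * g.coeff 0) := by
  rw [one_sub_U, smul_mul_assoc, nrm_smul, Finset.sum_mul]
  have hpos : (0 : ℝ) < 1 / (2 * (k : ℝ) + 1) := by positivity
  rw [abs_of_pos hpos]
  have c0 : 0 ≤ f.coeff 0 * g.coeff 0 := mul_nonneg (hf.nonneg 0) (hg.nonneg 0)
  have h1 : nrm (∑ i ∈ range k, (2 - tr ((i : ℤ) + 1) - tr (-((i : ℤ) + 1))) * (f * g))
      ≤ ∑ i ∈ range k, 4 * ((i : ℝ) + 1) ^ 2 * (f.coeff 0 * g.coeff 0) := by
    refine (nrm_sum _ _).trans (Finset.sum_le_sum (fun i _ => ?_))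
    have := second_diff hf hg (i + 1)
    push_cast at this
    exact this
  have h2 : ∑ i ∈ range k, 4 * ((i : ℝ) + 1) ^ 2 * (f.coeff 0 * g.coeff 0)
      = (4 * (k * (k + 1) * (2 * k + 1) / 6)) * (f.coeff 0 * g.coeff 0) := by
    rw [← Finset.sum_mul]
    congr 1
    have : ∀ k : ℕ, ∑ i ∈ range k, (4 : ℝ) * ((i : ℝ) + 1) ^ 2
        = 4 * ((k : ℝ) * (k + 1) * (2 * k + 1) / 6) := by
      intro k
      induction k with
      | zero => simp
      | succ k ih => rw [Finset.sum_range_succ, ih]; push_cast; ring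
    exact this k
  rw [h2] at h1
  have h3 := mul_le_mul_of_nonneg_left h1 hpos.le
  refine h3.trans ?_
  have e : 1 / (2 * (k : ℝ) + 1) * (4 * (k * (k + 1) * (2 * k + 1) / 6) * (f.coeff 0 * g.coeff 0))
      = (2 / 3) * (k * (k + 1)) * (f.coeff 0 * g.coeff 0) := by
    have : (2 * (k : ℝ) + 1) ≠ 0 := by positivity
    field_simp
    ring
  rw [e]
  apply mul_le_mul_of_nonneg_right _ c0
  rcases Nat.eq_zero_or_pos k with hk | hk
  · subst hk; simp
  · have : (1 : ℝ) ≤ k := by exact_mod_cast hk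
    nlinarith

theorem U_nrm_le (k : ℕ) (f : LA) : nrm (U k * f) ≤ nrm f := by
  unfold U D
  rw [smul_mul_assoc, nrm_smul, Finset.sum_mul]
  have hpos : (0 : ℝ) < 1 / (2 * (k : ℝ) + 1) := by positivity
  rw [abs_of_pos hpos]
  have h1 := nrm_sum (range (2 * k + 1)) (fun i : ℕ => tr ((k : ℤ) - i) * f)
  simp_rw [nrm_tr_mul] at h1
  simp only [Finset.sum_const, Finset.card_range, nsmul_eq_mul] at h1
  have := mul_le_mul_of_nonneg_left h1 hpos.le
  refine this.trans (le_of_eq ?_)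
  have : (2 * (k : ℝ) + 1) ≠ 0 := by positivity
  push_cast
  field_simp

theorem nrm_sub (f g : LA) : nrm (f - g) ≤ nrm f + nrm g := by
  rw [sub_eq_add_neg]
  exact (nrm_add _ _).trans (by rw [nrm_neg])

theorem trivial_U {f g : LA} (hf : Good f) (hg : Good g) (k : ℕ) :
    nrm ((1 - U k) * (f * g)) ≤ 2 := by
  have h1 : nrm (f * g) ≤ 1 := by
    refine (nrm_mul _ _).trans ?_
    rw [hf.nrm_eq, hg.nrm_eq, mul_one]
  have e : (1 - U k) * (f * g) = f * g - U k * (f * g) := by ring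
  rw [e]
  refine (nrm_sub _ _).trans ?_
  have := U_nrm_le k (f * g)
  linarith


/-- the ratio of squares -/
noncomputable def ratio {m : ℕ} (k : ℕ) (p : Fin m → ℕ) : ℝ :=
  (k : ℝ) ^ 2 / ((k : ℝ) ^ 2 + ∑ j, (p j : ℝ) ^ 2)

theorem ratio_nonneg {m : ℕ} (k : ℕ) (p : Fin m → ℕ) : 0 ≤ ratio k p := by
  unfold ratio
  have : 0 ≤ ∑ j, (p j : ℝ) ^ 2 := Finset.sum_nonneg (fun _ _ => sq_nonneg _)
  positivity

theorem half_bound {m : ℕ} (k : ℕ) (p : Fin m → ℕ) :
    min 2 ((2 / 3) * (k : ℝ) ^ 2 * ((A p).coeff 0) ^ 2) ≤ 10 * ratio k p := by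
  rcases Nat.eq_zero_or_pos k with hk | hk
  · subst hk
    refine (min_le_right _ _).trans ?_
    have := ratio_nonneg 0 p
    simp
    linarith
  · have hx : (0 : ℝ) < (k : ℝ) ^ 2 := by positivity
    have hy : 0 ≤ ∑ j, (p j : ℝ) ^ 2 := Finset.sum_nonneg (fun _ _ => sq_nonneg _)
    have hb := A_bound p
    unfold ratio
    rw [← mul_div_assoc, le_div_iff₀ (by linarith)]
    set x := (k : ℝ) ^ 2
    set y := ∑ j, (p j : ℝ) ^ 2
    set a := ((A p).coeff 0) ^ 2
    have h1 : min 2 ((2 / 3) * x * a) * x ≤ 2 * x :=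
      mul_le_mul_of_nonneg_right (min_le_left _ _) hx.le
    have h2 : min 2 ((2 / 3) * x * a) * y ≤ ((2 / 3) * x * a) * y :=
      mul_le_mul_of_nonneg_right (min_le_right _ _) hy
    have h3 : ((2 / 3) * x * a) * y ≤ 8 * x := by
      have := mul_le_mul_of_nonneg_left hb hx.le
      nlinarith
    nlinarith

theorem key_bound {m : ℕ} (k : ℕ) (p q : Fin m → ℕ) :
    nrm ((1 - U k) * (A p * A q)) ≤ 10 * ratio k p + 10 * ratio k q := by
  obtain ⟨gp, _⟩ := good_A p
  obtain ⟨gq, _⟩ := good_A q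
  have h1 := second_U gp gq k
  have h2 := trivial_U gp gq k
  have h3 := half_bound k p
  have h4 := half_bound k q
  have ap := gp.nonneg 0
  have aq := gq.nonneg 0
  set a := (A p).coeff 0
  set b := (A q).coeff 0
  have hk : (0 : ℝ) ≤ (k : ℝ) ^ 2 := by positivity
  have h5 : nrm ((1 - U k) * (A p * A q)) ≤
      (2 / 3) * (k : ℝ) ^ 2 * a ^ 2 + (2 / 3) * (k : ℝ) ^ 2 * b ^ 2 := by
    refine h1.trans ?_
    have : 2 * (a * b) ≤ a ^ 2 + b ^ 2 := by nlinarith [sq_nonneg (a - b)]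
    nlinarith [mul_le_mul_of_nonneg_left this hk]
  have pa : 0 ≤ (2 / 3) * (k : ℝ) ^ 2 * a ^ 2 := by positivity
  have pb : 0 ≤ (2 / 3) * (k : ℝ) ^ 2 * b ^ 2 := by positivity
  have h6 : nrm ((1 - U k) * (A p * A q)) ≤
      min 2 ((2 / 3) * (k : ℝ) ^ 2 * a ^ 2) + min 2 ((2 / 3) * (k : ℝ) ^ 2 * b ^ 2) := by
    rcases le_total 2 ((2 / 3) * (k : ℝ) ^ 2 * a ^ 2) with c1 | c1
    · rw [min_eq_left c1]
      have : 0 ≤ min 2 ((2 / 3) * (k : ℝ) ^ 2 * b ^ 2) := le_min (by norm_num) pb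
      linarith
    · rcases le_total 2 ((2 / 3) * (k : ℝ) ^ 2 * b ^ 2) with c2 | c2
      · rw [min_eq_left c2]
        have : 0 ≤ min 2 ((2 / 3) * (k : ℝ) ^ 2 * a ^ 2) := le_min (by norm_num) pa
        linarith
      · rw [min_eq_right c1, min_eq_right c2]
        exact h5
  linarith

/-- exchangeability -/
theorem exch {ι : Type*} [Fintype ι] (a : ι → ℕ) (c : ι → ℝ) (hc : ∀ i, 0 ≤ c i)
    (hs : ∑ i, c i = 1) (m : ℕ) :
    ∑ i, ∑ p : Fin m → ι, c i * (∏ j, c (p j)) * ratio (a i) (fun j => a (p j))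
      ≤ 1 / ((m : ℝ) + 1) := by
  classical
  -- a sum over tuples of length m + 1
  set W : (Fin (m + 1) → ι) → ℝ := fun r => ∏ j, c (r j) with hW
  set Q : (Fin (m + 1) → ι) → ℝ := fun r => ∑ j, (a (r j) : ℝ) ^ 2 with hQ
  have Wnn : ∀ r, 0 ≤ W r := fun r => Finset.prod_nonneg (fun _ _ => hc _)
  have Qnn : ∀ r, 0 ≤ Q r := fun r => Finset.sum_nonneg (fun _ _ => sq_nonneg _)
  have Wtot : ∑ r, W r = 1 := by
    have := Fintype.sum_pow c (m + 1)
    rw [hs, one_pow] at this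
    exact this.symm
  set X : Fin (m + 1) → ℝ := fun t => ∑ r, W r * ((a (r t) : ℝ) ^ 2 / Q r) with hX
  have e0 : ∑ i, ∑ p : Fin m → ι, c i * (∏ j, c (p j)) * ratio (a i) (fun j => a (p j)) = X 0 := by
    rw [hX]
    simp only
    rw [← (Fin.consEquiv (fun _ : Fin (m + 1) => ι)).sum_comp, Fintype.sum_prod_type]
    apply Finset.sum_congr rfl; intro i _
    apply Finset.sum_congr rfl; intro p _
    simp only [hW, hQ, Fin.consEquiv_apply, Fin.prod_univ_succ, Fin.sum_univ_succ, Fin.cons_zero,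
      Fin.cons_succ, ratio]
  have esym : ∀ t, X t = X 0 := by
    intro t
    rw [hX]
    simp only
    rw [← (Equiv.arrowCongr (Equiv.swap 0 t) (Equiv.refl ι)).sum_comp]
    apply Finset.sum_congr rfl; intro r _
    have w1 : W ((Equiv.arrowCongr (Equiv.swap 0 t) (Equiv.refl ι)) r) = W r := by
      simp only [hW, Equiv.arrowCongr_apply, Equiv.coe_refl, Function.comp_apply, id_eq]
      exact (Equiv.swap 0 t).symm.prod_comp (fun j => c (r j))
    have q1 : Q ((Equiv.arrowCongr (Equiv.swap 0 t) (Equiv.refl ι)) r) = Q r := by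
      simp only [hQ, Equiv.arrowCongr_apply, Equiv.coe_refl, Function.comp_apply, id_eq]
      exact (Equiv.swap 0 t).symm.sum_comp (fun j => (a (r j) : ℝ) ^ 2)
    rw [w1, q1]
    simp
  have etot : ∑ t, X t ≤ 1 := by
    rw [← Wtot]
    rw [hX]
    simp only
    rw [Finset.sum_comm]
    apply Finset.sum_le_sum; intro r _
    rw [← Finset.mul_sum, ← Finset.sum_div]
    have : (∑ i, (a (r i) : ℝ) ^ 2) / Q r ≤ 1 := div_self_le_one _
    calc _ ≤ W r * 1 := mul_le_mul_of_nonneg_left this (Wnn r)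
      _ = W r := mul_one _
  simp_rw [esym] at etot
  simp only [Finset.sum_const, Finset.card_univ, Fintype.card_fin, nsmul_eq_mul] at etot
  rw [e0, le_div_iff₀ (by positivity)]
  push_cast at etot
  linarith

theorem finite_even {ι : Type*} [Fintype ι] (a : ι → ℕ) (c : ι → ℝ) (hc : ∀ i, 0 ≤ c i)
    (hs : ∑ i, c i = 1) (m : ℕ) :
    nrm ((1 - ∑ i, c i • U (a i)) * ((∑ i, c i • U (a i)) ^ m * (∑ i, c i • U (a i)) ^ m))
      ≤ 20 / ((m : ℝ) + 1) := by
  classical
  have hpow : (∑ i, c i • U (a i)) ^ m = ∑ p : Fin m → ι, (∏ j, c (p j)) • A (fun j => a (p j)) := by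
    rw [Fintype.sum_pow]
    apply Finset.sum_congr rfl; intro p _
    unfold A
    rw [Finset.prod_smul]
  have hone : 1 - ∑ i, c i • U (a i) = ∑ i, c i • (1 - U (a i)) := by
    simp_rw [smul_sub]
    rw [Finset.sum_sub_distrib, ← Finset.sum_smul, hs, one_smul]
  have Wtot : ∑ p : Fin m → ι, ∏ j, c (p j) = 1 := by
    have := Fintype.sum_pow c m
    rw [hs, one_pow] at this
    exact this.symm
  have Wnn : ∀ p : Fin m → ι, 0 ≤ ∏ j, c (p j) := fun r => Finset.prod_nonneg (fun _ _ => hc _)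
  rw [hone, hpow, Finset.sum_mul_sum, Finset.sum_mul]
  have h1 : nrm (∑ i, c i • (1 - U (a i)) * ∑ p : Fin m → ι, ∑ q : Fin m → ι,
      (∏ j, c (p j)) • A (fun j => a (p j)) * (∏ j, c (q j)) • A (fun j => a (q j)))
      ≤ ∑ i, ∑ p : Fin m → ι, ∑ q : Fin m → ι, c i * (∏ j, c (p j)) * (∏ j, c (q j)) *
        (10 * ratio (a i) (fun j => a (p j)) + 10 * ratio (a i) (fun j => a (q j))) := by
    refine (nrm_sum _ _).trans (Finset.sum_le_sum (fun i _ => ?_))
    rw [Finset.mul_sum]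
    refine (nrm_sum _ _).trans (Finset.sum_le_sum (fun p _ => ?_))
    rw [Finset.mul_sum]
    refine (nrm_sum _ _).trans (Finset.sum_le_sum (fun q _ => ?_))
    have e : c i • (1 - U (a i)) *
        ((∏ j, c (p j)) • A (fun j => a (p j)) * (∏ j, c (q j)) • A (fun j => a (q j)))
        = (c i * (∏ j, c (p j)) * (∏ j, c (q j))) •
          ((1 - U (a i)) * (A (fun j => a (p j)) * A (fun j => a (q j)))) := by
      simp only [smul_mul_assoc, mul_smul_comm, smul_smul]
      congr 1; ring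
    rw [e, nrm_smul]
    have nn : 0 ≤ c i * (∏ j, c (p j)) * (∏ j, c (q j)) :=
      mul_nonneg (mul_nonneg (hc i) (Wnn p)) (Wnn q)
    rw [abs_of_nonneg nn]
    exact mul_le_mul_of_nonneg_left (key_bound _ _ _) nn
  refine h1.trans ?_
  set E := ∑ i, ∑ p : Fin m → ι, c i * (∏ j, c (p j)) * ratio (a i) (fun j => a (p j)) with hE
  have h2 : ∑ i, ∑ p : Fin m → ι, ∑ q : Fin m → ι, c i * (∏ j, c (p j)) * (∏ j, c (q j)) *
        (10 * ratio (a i) (fun j => a (p j)) + 10 * ratio (a i) (fun j => a (q j)))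
      = 20 * E := by
    have t1 : ∀ i, ∑ p : Fin m → ι, ∑ q : Fin m → ι, c i * (∏ j, c (p j)) * (∏ j, c (q j)) *
        (10 * ratio (a i) (fun j => a (p j)) + 10 * ratio (a i) (fun j => a (q j)))
        = 20 * ∑ p : Fin m → ι, c i * (∏ j, c (p j)) * ratio (a i) (fun j => a (p j)) := by
      intro i
      have u1 : ∑ p : Fin m → ι, ∑ q : Fin m → ι, c i * (∏ j, c (p j)) * (∏ j, c (q j)) *
          (10 * ratio (a i) (fun j => a (p j)))
          = 10 * ∑ p : Fin m → ι, c i * (∏ j, c (p j)) * ratio (a i) (fun j => a (p j)) := by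
        rw [Finset.mul_sum]
        apply Finset.sum_congr rfl; intro p _
        have : ∀ q : Fin m → ι, c i * (∏ j, c (p j)) * (∏ j, c (q j)) *
          (10 * ratio (a i) (fun j => a (p j))) =
          (10 * (c i * (∏ j, c (p j)) * ratio (a i) (fun j => a (p j)))) * (∏ j, c (q j)) := by
          intro q; ring
        simp_rw [this]
        rw [← Finset.mul_sum, Wtot, mul_one]
      have u2 : ∑ p : Fin m → ι, ∑ q : Fin m → ι, c i * (∏ j, c (p j)) * (∏ j, c (q j)) *
          (10 * ratio (a i) (fun j => a (q j)))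
          = 10 * ∑ p : Fin m → ι, c i * (∏ j, c (p j)) * ratio (a i) (fun j => a (p j)) := by
        rw [Finset.sum_comm, Finset.mul_sum]
        apply Finset.sum_congr rfl; intro q _
        have : ∀ p : Fin m → ι, c i * (∏ j, c (p j)) * (∏ j, c (q j)) *
          (10 * ratio (a i) (fun j => a (q j))) =
          (10 * (c i * (∏ j, c (q j)) * ratio (a i) (fun j => a (q j)))) * (∏ j, c (p j)) := by
          intro p; ring
        simp_rw [this]
        rw [← Finset.mul_sum, Wtot, mul_one]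
      simp_rw [mul_add, Finset.sum_add_distrib] at u1 u2 ⊢
      rw [u1, u2]; ring
    simp_rw [t1]
    rw [← Finset.mul_sum]
  rw [h2]
  have := exch a c hc hs m
  calc 20 * E ≤ 20 * (1 / ((m : ℝ) + 1)) := by linarith
    _ = 20 / ((m : ℝ) + 1) := by ring

theorem finite_all {ι : Type*} [Fintype ι] (a : ι → ℕ) (c : ι → ℝ) (hc : ∀ i, 0 ≤ c i)
    (hs : ∑ i, c i = 1) (n : ℕ) :
    n * nrm ((∑ i, c i • U (a i)) ^ n - (∑ i, c i • U (a i)) ^ (n + 1)) ≤ 40 := by
  set u := ∑ i, c i • U (a i) with hu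
  have hnu : ∀ f, nrm (u * f) ≤ nrm f := by
    intro f
    rw [hu, Finset.sum_mul]
    refine (nrm_sum _ _).trans ?_
    have : ∀ i, nrm (c i • U (a i) * f) ≤ c i * nrm f := by
      intro i
      rw [smul_mul_assoc, nrm_smul, abs_of_nonneg (hc i)]
      exact mul_le_mul_of_nonneg_left (U_nrm_le _ _) (hc i)
    refine (Finset.sum_le_sum (fun i _ => this i)).trans ?_
    rw [← Finset.sum_mul, hs, one_mul]
  rcases Nat.even_or_odd' n with ⟨m, rfl | rfl⟩
  · have h := finite_even a c hc hs m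
    rw [← hu] at h
    have e : u ^ (2 * m) - u ^ (2 * m + 1) = (1 - u) * (u ^ m * u ^ m) := by ring
    rw [e]
    have h2 := mul_le_mul_of_nonneg_left h (show (0 : ℝ) ≤ ((2 * m : ℕ) : ℝ) by positivity)
    refine h2.trans ?_
    rw [← mul_div_assoc, div_le_iff₀ (by positivity)]
    push_cast
    linarith
  · have h := finite_even a c hc hs m
    rw [← hu] at h
    have e : u ^ (2 * m + 1) - u ^ (2 * m + 1 + 1) = u * ((1 - u) * (u ^ m * u ^ m)) := by ring
    rw [e]
    have h2 := mul_le_mul_of_nonneg_left ((hnu _).trans h)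
      (show (0 : ℝ) ≤ ((2 * m + 1 : ℕ) : ℝ) by positivity)
    refine h2.trans ?_
    rw [← mul_div_assoc, div_le_iff₀ (by positivity)]
    push_cast
    linarith


/-- convolution of two functions on the integers -/
noncomputable def conv (f g : ℤ → ℝ) (k : ℤ) : ℝ := ∑' j : ℤ, f j * g (k - j)

/-- convolution powers of a function on the integers; the power zero is the point mass at zero -/
noncomputable def cpow (μ : ℤ → ℝ) : ℕ → ℤ → ℝ
  | 0 => fun k => if k = 0 then 1 else 0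
  | n + 1 => conv μ (cpow μ n)

theorem coeff_mul_tsum (f g : LA) (k : ℤ) :
    (f * g).coeff k = ∑' j : ℤ, f.coeff j * g.coeff (k - j) := by
  rw [AddMonoidAlgebra.coeff_mul_apply_left, Finsupp.sum]
  rw [tsum_eq_sum (s := f.coeff.support)]
  · apply Finset.sum_congr rfl
    intro j _
    congr 2; ring
  · intro j hj
    have : f.coeff j = 0 := by simpa using hj
    simp [this]

theorem coeff_one (k : ℤ) : (1 : LA).coeff k = if k = 0 then 1 else 0 := by
  rw [AddMonoidAlgebra.one_def, AddMonoidAlgebra.coeff_single, Finsupp.single_apply]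
  simp [eq_comm]

theorem coeff_tr (i k : ℤ) : (tr i).coeff k = if k = i then 1 else 0 := by
  rw [tr, AddMonoidAlgebra.coeff_single, Finsupp.single_apply]
  simp [eq_comm]

/-- the truncation -/
noncomputable def trunc (μ : ℤ → ℝ) (N : ℕ) : LA :=
  ∑ k ∈ range N, (μ k - μ ((k : ℤ) + 1)) • D k + μ N • D N

/-- its total mass -/
noncomputable def mass (μ : ℤ → ℝ) (N : ℕ) : ℝ := (∑ k ∈ range (N + 1), 2 * μ k) - μ 0

theorem trunc_coeff (μ : ℤ → ℝ) (hsym : ∀ k, μ (-k) = μ k) (N : ℕ) (j : ℤ) :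
    (trunc μ N).coeff j = if |j| ≤ N then μ j else 0 := by
  induction N with
  | zero =>
    unfold trunc
    simp only [Finset.range_zero, Finset.sum_empty, zero_add, D_zero, Nat.cast_zero]
    rw [AddMonoidAlgebra.coeff_smul_apply, coeff_one]
    by_cases hj : j = 0
    · subst hj; simp
    · have : ¬ |j| ≤ 0 := by simpa using hj
      simp [hj]
  | succ N ih =>
    have e : trunc μ (N + 1) = trunc μ N + μ ((N : ℤ) + 1) •
        (tr ((N : ℤ) + 1) + tr (-((N : ℤ) + 1))) := by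
      unfold trunc
      rw [Finset.sum_range_succ, D_succ]
      push_cast
      rw [sub_smul, smul_add]
      abel
    rw [e, AddMonoidAlgebra.coeff_add, Finsupp.add_apply, ih, AddMonoidAlgebra.coeff_smul_apply,
      AddMonoidAlgebra.coeff_add, Finsupp.add_apply, coeff_tr, coeff_tr]
    rcases lt_trichotomy |j| ((N : ℤ) + 1) with h | h | h
    · have h1 : |j| ≤ N := by omega
      have h2 : |j| ≤ ((N + 1 : ℕ) : ℤ) := by push_cast; omega
      have h3 : j ≠ (N : ℤ) + 1 := by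
        intro h; subst h; rw [abs_of_nonneg (by positivity)] at h1; omega
      have h4 : j ≠ -((N : ℤ) + 1) := by
        intro h; subst h; rw [abs_neg, abs_of_nonneg (by positivity)] at h1; omega
      rw [if_pos h1, if_pos h2, if_neg h3, if_neg h4]
      simp
    · have h1 : ¬ |j| ≤ N := by omega
      have h2 : |j| ≤ ((N + 1 : ℕ) : ℤ) := by push_cast; omega
      rw [if_neg h1, if_pos h2]
      rcases abs_eq (by positivity : (0 : ℤ) ≤ (N : ℤ) + 1) |>.mp h with h5 | h5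
      · have h6 : j ≠ -((N : ℤ) + 1) := by omega
        rw [if_pos h5, if_neg h6, h5]; simp
      · have h6 : j ≠ ((N : ℤ) + 1) := by omega
        rw [if_neg h6, if_pos h5, h5, hsym]; simp
    · have h1 : ¬ |j| ≤ N := by omega
      have h2 : ¬ |j| ≤ ((N + 1 : ℕ) : ℤ) := by push_cast; omega
      have h3 : j ≠ (N : ℤ) + 1 := by
        intro h'; subst h'; rw [abs_of_nonneg (by positivity)] at h; omega
      have h4 : j ≠ -((N : ℤ) + 1) := by
        intro h'; subst h'; rw [abs_neg, abs_of_nonneg (by positivity)] at h; omega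
      rw [if_neg h1, if_neg h2, if_neg h3, if_neg h4]
      simp

theorem U_zero : U 0 = 1 := by
  unfold U; rw [D_zero]; simp

theorem D_eq (k : ℕ) : D k = (2 * (k : ℝ) + 1) • U k := by
  unfold U
  have : (2 * (k : ℝ) + 1) ≠ 0 := by positivity
  rw [smul_smul, mul_one_div_cancel this, one_smul]

/-- the truncated probability measure -/
noncomputable def muN (μ : ℤ → ℝ) (N : ℕ) : LA := trunc μ N + (1 - mass μ N) • 1

theorem mass_eq (μ : ℤ → ℝ) (N : ℕ) :
    ∑ k ∈ range N, (2 * (k : ℝ) + 1) * (μ k - μ ((k : ℤ) + 1)) + (2 * (N : ℝ) + 1) * μ N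
      = mass μ N := by
  unfold mass
  induction N with
  | zero => simp; ring
  | succ N ih =>
    rw [Finset.sum_range_succ, Finset.sum_range_succ _ (N + 1)]
    push_cast
    linarith

theorem muN_repr (μ : ℤ → ℝ) (h0 : ∀ k, 0 ≤ μ k)
    (hmono : ∀ m n : ℕ, m ≤ n → μ n ≤ μ m) (N : ℕ) (hm : mass μ N ≤ 1) :
    ∃ (a : Option (Fin (N + 1)) → ℕ) (c : Option (Fin (N + 1)) → ℝ), (∀ o, 0 ≤ c o) ∧
      ∑ o, c o = 1 ∧ muN μ N = ∑ o, c o • U (a o) := by
  set a : Option (Fin (N + 1)) → ℕ := fun o => o.elim 0 (fun k => (k : ℕ)) with ha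
  set d : ℕ → ℝ := fun k => if k < N then μ k - μ ((k : ℤ) + 1) else μ N with hd
  set c : Option (Fin (N + 1)) → ℝ := fun o => o.elim (1 - mass μ N)
    (fun k => (2 * ((k : ℕ) : ℝ) + 1) * d k) with hc
  have dnn : ∀ k, 0 ≤ d k := by
    intro k
    simp only [hd]
    split_ifs
    · have := hmono k (k + 1) (by omega)
      push_cast at this
      linarith
    · exact h0 _
  have cnn : ∀ o, 0 ≤ c o := by
    intro o
    cases o with
    | none => simp only [hc, Option.elim]; linarith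
    | some k =>
      simp only [hc, Option.elim]
      have := dnn k
      positivity
  have e1 : muN μ N = ∑ o, c o • U (a o) := by
    rw [Fintype.sum_option]
    simp only [hc, ha, Option.elim]
    rw [U_zero, muN, add_comm]
    congr 1
    rw [Fin.sum_univ_eq_sum_range (fun k => ((2 * (k : ℝ) + 1) * d k) • U k) (N + 1),
      Finset.sum_range_succ, trunc]
    congr 1
    · apply Finset.sum_congr rfl
      intro k hk
      rw [D_eq, smul_smul]
      congr 1
      simp only [hd]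
      rw [if_pos (Finset.mem_range.mp hk)]
      ring
    · rw [D_eq, smul_smul]
      congr 1
      simp only [hd]
      rw [if_neg (lt_irrefl N)]
      ring
  have e2 : ∑ o, c o = 1 := by
    rw [Fintype.sum_option]
    simp only [hc, Option.elim]
    rw [Fin.sum_univ_eq_sum_range (fun k => ((2 * (k : ℝ) + 1) * d k)) (N + 1),
      Finset.sum_range_succ]
    have := mass_eq μ N
    have e3 : ∑ k ∈ range N, (2 * (k : ℝ) + 1) * d k =
        ∑ k ∈ range N, (2 * (k : ℝ) + 1) * (μ k - μ ((k : ℤ) + 1)) := by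
      apply Finset.sum_congr rfl
      intro k hk
      simp only [hd]
      rw [if_pos (Finset.mem_range.mp hk)]
    have e4 : d N = μ N := by simp only [hd]; rw [if_neg (lt_irrefl N)]
    rw [e3, e4]
    linarith
  exact ⟨a, c, cnn, e2, e1⟩

theorem finite_nrm {ι : Type*} [Fintype ι] (a : ι → ℕ) (c : ι → ℝ) (hc : ∀ i, 0 ≤ c i)
    (hs : ∑ i, c i = 1) (f : LA) : nrm ((∑ i, c i • U (a i)) * f) ≤ nrm f := by
  rw [Finset.sum_mul]
  refine (nrm_sum _ _).trans ?_
  have : ∀ i, nrm (c i • U (a i) * f) ≤ c i * nrm f := by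
    intro i
    rw [smul_mul_assoc, nrm_smul, abs_of_nonneg (hc i)]
    exact mul_le_mul_of_nonneg_left (U_nrm_le _ _) (hc i)
  refine (Finset.sum_le_sum (fun i _ => this i)).trans ?_
  rw [← Finset.sum_mul, hs, one_mul]

theorem muN_bound (μ : ℤ → ℝ) (h0 : ∀ k, 0 ≤ μ k)
    (hmono : ∀ m n : ℕ, m ≤ n → μ n ≤ μ m) (N : ℕ) (hm : mass μ N ≤ 1) (n : ℕ) :
    n * nrm ((muN μ N) ^ n - (muN μ N) ^ (n + 1)) ≤ 40 := by
  obtain ⟨a, c, h1, h2, h3⟩ := muN_repr μ h0 hmono N hm
  rw [h3]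
  exact finite_all a c h1 h2 n

theorem muN_pow_nrm (μ : ℤ → ℝ) (h0 : ∀ k, 0 ≤ μ k)
    (hmono : ∀ m n : ℕ, m ≤ n → μ n ≤ μ m) (N : ℕ) (hm : mass μ N ≤ 1) (n : ℕ) :
    nrm ((muN μ N) ^ n) ≤ 1 := by
  obtain ⟨a, c, h1, h2, h3⟩ := muN_repr μ h0 hmono N hm
  rw [h3]
  induction n with
  | zero => rw [pow_zero, good_one.nrm_eq]
  | succ n ih => rw [pow_succ']; exact (finite_nrm a c h1 h2 _).trans ih

theorem muN_nrm (μ : ℤ → ℝ) (h0 : ∀ k, 0 ≤ μ k) (hsym : ∀ k, μ (-k) = μ k) (N : ℕ)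
    (hm : mass μ N ≤ 1) : ∀ k, 0 ≤ (muN μ N).coeff k := by
  intro k
  unfold muN
  rw [AddMonoidAlgebra.coeff_add, Finsupp.add_apply, trunc_coeff μ hsym,
    AddMonoidAlgebra.coeff_smul_apply, coeff_one]
  have := h0 k
  split_ifs <;> simp <;> linarith


open Filter Topology

theorem mass_facts (μ : ℤ → ℝ) (h0 : ∀ k, 0 ≤ μ k) (hsum : HasSum μ 1)
    (hsym : ∀ k, μ (-k) = μ k) :
    (∀ N, mass μ N ≤ 1) ∧ (∀ N, 0 ≤ mass μ N) ∧ Tendsto (fun N => mass μ N) atTop (𝓝 1) := by
  have h1 : HasSum (fun n : ℕ => μ n + μ ((n : ℤ) + 1)) 1 := by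
    have := hsum.nat_add_neg_add_one
    simp_rw [hsym] at this
    exact this
  have nn : ∀ n : ℕ, 0 ≤ μ n + μ ((n : ℤ) + 1) := fun n => add_nonneg (h0 _) (h0 _)
  have ps : ∀ M : ℕ, ∑ n ∈ range M, (μ n + μ ((n : ℤ) + 1)) = mass μ M - μ M := by
    intro M
    unfold mass
    induction M with
    | zero => simp; ring
    | succ M ih =>
      rw [Finset.sum_range_succ, ih, Finset.sum_range_succ _ (M + 1)]
      push_cast
      ring
  have le1 : ∀ M : ℕ, ∑ n ∈ range M, (μ n + μ ((n : ℤ) + 1)) ≤ 1 := fun M =>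
    sum_le_hasSum _ (fun n _ => nn n) h1
  have up : ∀ N, mass μ N ≤ 1 := by
    intro N
    have a := le1 (N + 1)
    rw [Finset.sum_range_succ, ps] at a
    have := h0 ((N : ℤ) + 1)
    linarith
  have lo : ∀ N, ∑ n ∈ range N, (μ n + μ ((n : ℤ) + 1)) ≤ mass μ N := by
    intro N
    rw [ps]
    have := h0 (N : ℤ)
    linarith
  refine ⟨up, fun N => ?_, ?_⟩
  · exact (Finset.sum_nonneg (fun n _ => nn n)).trans (lo N)
  · exact tendsto_of_tendsto_of_tendsto_of_le_of_le h1.tendsto_sum_nat tendsto_const_nhds lo up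

theorem muN_coeff (μ : ℤ → ℝ) (hsym : ∀ k, μ (-k) = μ k) (N : ℕ) (k : ℤ) :
    (muN μ N).coeff k = (if |k| ≤ N then μ k else 0) + (1 - mass μ N) * (if k = 0 then 1 else 0) := by
  unfold muN
  rw [AddMonoidAlgebra.coeff_add, Finsupp.add_apply, trunc_coeff μ hsym,
    AddMonoidAlgebra.coeff_smul_apply, coeff_one, smul_eq_mul]

theorem muN_lim (μ : ℤ → ℝ) (h0 : ∀ k, 0 ≤ μ k) (hsum : HasSum μ 1)
    (hsym : ∀ k, μ (-k) = μ k) (k : ℤ) :
    Tendsto (fun N => (muN μ N).coeff k) atTop (𝓝 (μ k)) := by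
  obtain ⟨_, _, hm⟩ := mass_facts μ h0 hsum hsym
  simp_rw [muN_coeff μ hsym]
  have t1 : Tendsto (fun N : ℕ => (if |k| ≤ N then μ k else 0)) atTop (𝓝 (μ k)) := by
    apply tendsto_const_nhds.congr'
    filter_upwards [eventually_ge_atTop k.natAbs] with N hN
    rw [if_pos (by rw [Int.abs_eq_natAbs]; exact_mod_cast hN)]
  have t2 : Tendsto (fun N : ℕ => (1 - mass μ N) * (if k = 0 then (1 : ℝ) else 0)) atTop
      (𝓝 ((1 - 1) * (if k = 0 then (1 : ℝ) else 0))) :=
    (tendsto_const_nhds.sub hm).mul tendsto_const_nhds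
  have := t1.add t2
  simpa using this

theorem pow_lim (μ : ℤ → ℝ) (h0 : ∀ k, 0 ≤ μ k) (hsum : HasSum μ 1)
    (hsym : ∀ k, μ (-k) = μ k) (hmono : ∀ m n : ℕ, m ≤ n → μ n ≤ μ m) (n : ℕ) :
    ∀ k, Tendsto (fun N => ((muN μ N) ^ n).coeff k) atTop (𝓝 (cpow μ n k)) := by
  obtain ⟨hm1, hm0, hmt⟩ := mass_facts μ h0 hsum hsym
  induction n with
  | zero =>
    intro k
    simp only [pow_zero, cpow, coeff_one]
    exact tendsto_const_nhds
  | succ n ih =>
    intro k
    simp only [pow_succ', cpow, conv, coeff_mul_tsum]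
    apply tendsto_tsum_of_dominated_convergence
      (bound := fun j : ℤ => μ j + (if j = 0 then (1 : ℝ) else 0))
    · refine hsum.summable.add ?_
      exact summable_of_ne_finset_zero (s := {0}) (by intro j hj; simp at hj; simp [hj])
    · intro j
      exact (muN_lim μ h0 hsum hsym j).mul (ih (k - j))
    · apply Eventually.of_forall
      intro N j
      have b1 : |((muN μ N) ^ n).coeff (k - j)| ≤ 1 :=
        (coeff_le_nrm _ _).trans (muN_pow_nrm μ h0 hmono N (hm1 N) n)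
      have b2 : |(muN μ N).coeff j| ≤ μ j + (if j = 0 then (1 : ℝ) else 0) := by
        rw [muN_coeff μ hsym]
        have a0 := h0 j
        have a1 := hm1 N
        have a2 := hm0 N
        rw [abs_of_nonneg (by split_ifs <;> simp <;> linarith)]
        split_ifs <;> simp <;> linarith
      rw [norm_mul, Real.norm_eq_abs, Real.norm_eq_abs]
      calc _ ≤ (μ j + (if j = 0 then (1 : ℝ) else 0)) * 1 :=
            mul_le_mul b2 b1 (abs_nonneg _) ((abs_nonneg _).trans b2)
        _ = _ := mul_one _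

/-- Every symmetric probability measure on the integers that is non-increasing on the natural
numbers has the Ritt property, with the universal constant 40. -/
theorem result (μ : ℤ → ℝ) (h0 : ∀ k, 0 ≤ μ k) (hsum : HasSum μ 1)
    (hsym : ∀ k, μ (-k) = μ k) (hmono : ∀ m n : ℕ, m ≤ n → μ n ≤ μ m) :
    ∀ n : ℕ, 1 ≤ n → Summable (fun k : ℤ => |cpow μ n k - cpow μ (n + 1) k|) ∧
      (n : ℝ) * ∑' k : ℤ, |cpow μ n k - cpow μ (n + 1) k| ≤ 40 := by
  intro n hn
  obtain ⟨hm1, hm0, hmt⟩ := mass_facts μ h0 hsum hsym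
  have npos : (0 : ℝ) < n := by exact_mod_cast hn
  have fin : ∀ s : Finset ℤ, ∑ k ∈ s, |cpow μ n k - cpow μ (n + 1) k| ≤ 40 / n := by
    intro s
    have t : Tendsto (fun N => ∑ k ∈ s, |((muN μ N) ^ n).coeff k - ((muN μ N) ^ (n + 1)).coeff k|)
        atTop (𝓝 (∑ k ∈ s, |cpow μ n k - cpow μ (n + 1) k|)) := by
      apply tendsto_finsetSum
      intro k _
      exact ((pow_lim μ h0 hsum hsym hmono n k).sub (pow_lim μ h0 hsum hsym hmono (n + 1) k)).abs
    apply le_of_tendsto t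
    apply Eventually.of_forall
    intro N
    have b := muN_bound μ h0 hmono N (hm1 N) n
    have b2 := sum_le_nrm ((muN μ N) ^ n - (muN μ N) ^ (n + 1)) s
    simp only [AddMonoidAlgebra.coeff_sub, Finsupp.sub_apply] at b2
    rw [le_div_iff₀ npos]
    nlinarith
  have hs : Summable (fun k : ℤ => |cpow μ n k - cpow μ (n + 1) k|) :=
    summable_of_sum_le (fun _ => abs_nonneg _) fin
  refine ⟨hs, ?_⟩
  have : ∑' k : ℤ, |cpow μ n k - cpow μ (n + 1) k| ≤ 40 / n :=
    hs.tsum_le_of_sum_le fin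
  rw [le_div_iff₀ npos] at this
  linarith

end Pool.Agent.Results.MP_e7950b_an.RittMonotone
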